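import Pool.Agent.Helper85.RL.Main2
import Pool.Agent.Helper16.HR.Fin2
import Pool.Agent.Helper16.HR.Rp0
import Pool.Agent.Helper16.HR.Mult
import Pool.Agent.Helper16.HR.Inc
import Pool.Agent.Helper16.HR.Fine
import Pool.Agent.Helper16.HR.Ht
import Pool.Agent.Helper16.HR.Prim
import Pool.Agent.Helper26.HR.KERN
import Pool.Agent.Helper53.HR.RKH
import Pool.Agent.Helper74.HR.Bad
import Pool.Agent.Helper74.HR.CB
import Pool.Agent.Helper74.HR.CU
import Pool.Agent.Helper74.HR.Img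
import Pool.Agent.Helper83.HR.ACKB
import Pool.Agent.Helper83.HR.NINJ
import Pool.Agent.Helper84.HR.CNT
import Pool.Agent.Helper41.HRL.CLM
import Pool.Agent.Helper94.HR.HYP
import Pool.Agent.Helper11.HR.STEP
import Pool.Agent.Helper31.RL.MARG
import Pool.Agent.Helper31.RL.CNUM
import Pool.Agent.Helper35.RL.BLOW
import Pool.Agent.Helper35.RL.PRIMM
import Pool.Agent.Helper41.RL.ACKG
import Pool.Agent.Helper41.RL.MARC
import Pool.Agent.Helper52.RL.HOMC
import Pool.Agent.Helper52.RL.CORE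
import Pool.Agent.Helper59.RL.COV
import Pool.Agent.Helper59.RL.ENTB
import Pool.Agent.Helper92.RL.NUML
import Pool.Agent.Helper96.RL.PACK
import Pool.Agent.Helper96.RL.SEQ
import Pool.Agent.Helper99.RL.ENC
import Pool.Agent.Helper99.RL.GAIN
import Pool.Agent.Helper99.RL.RA

/-! # Hypergraph removal with a logarithm inside the Ackermann hierarchy -/

set_option autoImplicit false

namespace Pool.Agent.Results.MP_93babf_co.RemovalLog

open Pool.Helper16.HR Pool.Helper85.RL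

/-- The Ackermann hierarchy of the problem: `A k i = A_k(i)` for `k ≥ 1`, `i ≥ 1`
(and `A_k(0) = 1`): `A_1(i) = 2 ^ i`, `A_k(1) = 2`, `A_k(i + 1) = A_(k-1)(A_k(i))`. -/
def A : ℕ → ℕ → ℕ
  | 0, i => i
  | 1, i => 2 ^ i
  | _ + 2, 0 => 1
  | k + 2, i + 1 => A (k + 1) (A (k + 2) i)

theorem A_eq (l : ℕ) : ∀ i, A (l + 1) i = Ack l i := by
  induction l with
  | zero => intro i; rw [A, Ack]
  | succ l ih =>
    intro i
    induction i with
    | zero => rw [A, Ack]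
    | succ i ih2 => rw [A, Ack, ih2, ih]

/-- Let `ℓ ≥ 2`, let `E` be the edge set of a `k`-graph `H` on the vertices `0, ..., h - 1`, for
any `k ≥ 1`, and let `H'`, with edge set `E' ⊆ E`, be a subgraph of `H` such that there is a
homomorphism `f` from `H` to `H'` (for example `H' = H`, or the core of `H`). Assume that every
chain of nonempty sets of vertices, each an intersection of edges of `H'` but none of them
contained in all edges of `H'`, has at most `ℓ` members; or that any two edges of `H'` meet in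
fewer than `ℓ` vertices (always true for `ℓ = k`); or that all degrees in `H'` are at most `ℓ`; or
that `H'` has at most `ℓ + 1` edges. Then the removal lemma holds for `H` with
`1 / δ = F(h, ⌈1 / ε⌉)`, `F(h, m) = A_ℓ(2 ^ (3 h + 10) * ⌈log₂ m⌉)`, a primitive recursive
function which does not depend on `k`. -/
theorem result : ∀ ℓ : ℕ, 2 ≤ ℓ → ∃ F : ℕ → ℕ → ℕ, Primrec₂ F ∧
    (∀ h m : ℕ, F h m = A ℓ (2 ^ (3 * h + 10) * Nat.clog 2 m)) ∧
    ∀ (k h : ℕ) (E E' : Finset (Finset (Fin h))) (f : Fin h → Fin h), 1 ≤ k →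
      (∀ e ∈ E, e.card = k) → E' ⊆ E → (∀ e ∈ E, e.image f ∈ E') →
      ((∀ C : Finset (Finset (Fin h)),
          (∀ T ∈ C, T.Nonempty ∧ (∃ S ⊆ E', S.Nonempty ∧ ∀ i, i ∈ T ↔ ∀ e ∈ S, i ∈ e) ∧
            ∃ e ∈ E', ¬ T ⊆ e) →
          (∀ S ∈ C, ∀ T ∈ C, S ⊆ T ∨ T ⊆ S) → C.card ≤ ℓ) ∨
        (∀ e ∈ E', ∀ f ∈ E', e ≠ f → (e ∩ f).card < ℓ) ∨
        (∀ i : Fin h, (E'.filter (fun e => i ∈ e)).card ≤ ℓ) ∨
        E'.card ≤ ℓ + 1) →
      ∀ ε : ℝ, 0 < ε → ε < 1 → ∀ (n : ℕ) (G : Finset (Finset (Fin n))), (∀ g ∈ G, g.card = k) →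
        ((Nat.card {φ : Fin h → Fin n //
            Function.Injective φ ∧ ∀ e ∈ E, e.image φ ∈ G} : ℕ) : ℝ) ≤
          1 / (F h ⌈1 / ε⌉₊ : ℝ) * (n : ℝ) ^ h →
        ∃ D ⊆ G, (D.card : ℝ) ≤ ε * (n : ℝ) ^ k ∧
          ∀ φ : Fin h → Fin n, Function.Injective φ → ∃ e ∈ E, e.image φ ∉ G \ D := by
  intro ℓ hℓ
  obtain ⟨l, rfl⟩ : ∃ l, ℓ = l + 1 := ⟨ℓ - 1, by omega⟩
  refine ⟨fun h m => Ack l (2 ^ (3 * h + 10) * Nat.clog 2 m), Pool.Helper35.RL.PRIMM l,
    fun h m => (A_eq l _).symm, ?_⟩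
  intro k h E E' f hk hE hE' hf hc ε hε hε1 n G hG hcop
  have hCNT : ST_CNT := st_CNT (st_CLM st_CU) st_CB
  have hMARC : ST_MARC := Pool.Helper41.RL.MARC Pool.Helper31.RL.MARG hCNT st_CB
  have hRA : ST_RA := Pool.Helper99.RL.RA hMARC hCNT Pool.Helper96.RL.SEQ
  have hROUND : ST_ROUND := ROUND Pool.Helper59.RL.COV Pool.Helper99.RL.ENC
    Pool.Helper99.RL.GAIN hRA st_BAD
  have hSETL : ST_SETL := SETL hROUND Pool.Helper96.RL.PACK Pool.Helper59.RL.ENTB
  have hHYP : ST_HYP := st_HYP st_NINJ st_IMG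
  have hSTEP : ST_STEP := st_STEP (st_FINE (st_INC st_MULT))
  have hACKG : ST_ACKG := Pool.Helper41.RL.ACKG st_EXP st_MONF (st_ACKB st_EXP st_MONF)
  have hMAIN : ST_MAINL := MAINL st_RKH st_RP0 hSTEP st_MONF hSETL st_KERN
    (Pool.Helper92.RL.NUML st_MONF hACKG) hHYP
  have hCORE : ST_CORE := Pool.Agent.Helper52.RL.CORE (Pool.Agent.Helper52.RL.HOMC Pool.Helper35.RL.BLOW)
    st_NINJ
  exact final_formC hMAIN st_HT1 st_HT2 st_HT3 hCORE Pool.Helper31.RL.CNUM l (by omega) h k E E' f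
    hk hE hE' hf hc ε hε hε1 n G hG hcop

end Pool.Agent.Results.MP_93babf_co.RemovalLog
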